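import Mathlib
import Pool.Agent.Lib_helper88.HCP.FIN

set_option autoImplicit false

namespace Pool.Agent.Results.MP_eb773b_co.AllButFinitelyMany

open HCR

/-- 1. For all parameters with `r k ≥ min(v,b) ^ 9` question `Q1` holds and every `A`-optimal design
is `(M,S)`-optimal; so for every value of `min(v,b)` all but finitely many pairs `(r,k)` are settled.
2. A criterion for a single parameter set (`2 ≤ k ≤ v`, `r (k - 1) = lam (v - 1) + d`, `d < v - 1`,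
`lam ≥ 1`): the same conclusion holds if for one `(M,S)`-optimal design the number
`A = ∑_{i ≠ j} (λ_ij - lam) ^ 2` satisfies `A ^ 3 ≤ (lam v + d) ^ 2`. -/
theorem result :
    (∀ v b k r : ℕ, 1 ≤ v → 1 ≤ b → 1 ≤ k → 1 ≤ r → (min v b) ^ 9 ≤ r * k →
      Q1 v b k r ∧ ∀ N : Matrix (Fin v) (Fin b) ℕ, Aopt k r N → MSopt k r N) ∧
    (∀ v b k r lam d : ℕ, 2 ≤ k → k ≤ v → 1 ≤ lam → r * (k - 1) = lam * (v - 1) + d →
      d < v - 1 → ∀ N₀ : Matrix (Fin v) (Fin b) ℕ, MSopt k r N₀ →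
      (∑ i, ∑ j, if i = j then (0 : ℤ) else
        ((∑ l, (N₀ i l : ℤ) * (N₀ j l : ℤ)) - lam) ^ 2) ^ 3 ≤ ((lam : ℤ) * v + d) ^ 2 →
      Q1 v b k r ∧ ∀ N : Matrix (Fin v) (Fin b) ℕ, Aopt k r N → MSopt k r N) :=
  ⟨fun v b k r hv hb hk hr h => poly_range v b k r hv hb hk hr h,
    fun v b k r lam d hk hkv hl hp hd N₀ hN₀ hA => crit_conc v b k r hk hkv lam d hl hp hd N₀ hN₀ hA⟩

end Pool.Agent.Results.MP_eb773b_co.AllButFinitelyMany
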