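import Mathlib
import Pool.Agent.Lib_helper88.HCR.FIN

set_option autoImplicit false

namespace Pool.Agent.Results.MP_eb773b_co.HighConcurrence

open HCR

/-- `(M,S)`-optimality versus `A`-optimality in the range of high concurrence.

1. For every block size `k` there is `C` such that for all `v`, `b`, `r` with `b ≥ C v ^ 2` question
`Q1` holds and every `A`-optimal design is `(M,S)`-optimal.
2. For `2 ≤ k ≤ v` (and `vr = bk`, `b ≥ C v ^ 2`) write `r (k - 1) = lam (v - 1) + d`, `d < v - 1`.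
Every `d`-regular graph `G` is the graph of a binary design in which the pair `i ≠ i'` occurs in
`lam + G i i'` blocks, and the `A`-optimal designs are exactly the designs of this kind whose graph
minimises `tr (M - G)⁻¹`, `M = lam v + d`, among all `d`-regular graphs.
3. The dual range: for every replication `r` there is `C` such that 1. holds for all `v ≥ C b ^ 2`.
4. For block size two the constant is `51`. -/
theorem result :
    (∀ k : ℕ, 1 ≤ k → ∃ C : ℕ, ∀ v b r : ℕ, 1 ≤ v → C * v ^ 2 ≤ b →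
      Q1 v b k r ∧ ∀ N : Matrix (Fin v) (Fin b) ℕ, Aopt k r N → MSopt k r N) ∧
    (∀ k : ℕ, 2 ≤ k → ∃ C : ℕ, ∀ v b r : ℕ, k ≤ v → v * r = b * k → C * v ^ 2 ≤ b →
      ∃ lam d : ℕ, r * (k - 1) = lam * (v - 1) + d ∧ d < v - 1 ∧
        (∀ G : Matrix (Fin v) (Fin v) ℤ, Reg d G →
          ∃ N : Matrix (Fin v) (Fin b) ℕ, HasGraph k r lam N G) ∧
        ∀ N : Matrix (Fin v) (Fin b) ℕ, Aopt k r N ↔
          ∃ G : Matrix (Fin v) (Fin v) ℤ, Reg d G ∧ HasGraph k r lam N G ∧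
            ∀ G' : Matrix (Fin v) (Fin v) ℤ, Reg d G' →
              tr1 ((lam : ℝ) * v + d) (rl G) ≤ tr1 ((lam : ℝ) * v + d) (rl G')) ∧
    (∀ r : ℕ, 1 ≤ r → ∃ C : ℕ, ∀ v b k : ℕ, 1 ≤ v → 1 ≤ b → 1 ≤ k → C * b ^ 2 ≤ v →
      Q1 v b k r ∧ ∀ N : Matrix (Fin v) (Fin b) ℕ, Aopt k r N → MSopt k r N) ∧
    (∀ v b r : ℕ, 1 ≤ v → 51 * v ^ 2 ≤ b →
      Q1 v b 2 r ∧ ∀ N : Matrix (Fin v) (Fin b) ℕ, Aopt 2 r N → MSopt 2 r N) :=
  ⟨fun k hk => range_direct' k hk, fun k hk => range_struct k hk, fun r hr => range_dual r hr,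
    fun v b r hv hb => range_two v b r hv hb⟩

end Pool.Agent.Results.MP_eb773b_co.HighConcurrence
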