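import Mathlib
import Pool.Agent.Lib_helper88.SPR.JOINT

set_option autoImplicit false

namespace Pool.Agent.Results.MP_eb773b_co.LowConcurrence

open HCR

/-- `A`-optimal designs in the range of low average concurrence.

1. A bound with an absolute constant `C` and a power of the logarithm: if `C r k² (log vr)⁶ ≤ v`
then question `Q1` holds and every `A`-optimal design is linear (hence `(M,S)`-optimal); and if
`C l³ (log vr)⁶ ((r - 1)(k - 1))ˡ ≤ vr` the Levi graph of every `A`-optimal design has no cycle of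
length at most `2 l`.
2. Without logarithm: the same for `r ≥ 10000 (k - 1)²`, `v ≥ 1000 (k - 1)² r`.
3. The dual range.
4. For every block size `k` there is `C` such that this holds for all `v ≥ C r`.
5. For every replication `r` there is `C` such that this holds for all `b ≥ C k`. -/
theorem result :
    (∃ C : ℝ, 0 < C ∧ ∀ v b k r : ℕ, 2 ≤ k → 2 ≤ r → ¬ (k = 2 ∧ r = 2) →
      v * r = b * k → 1 ≤ v →
      (C * r * (k : ℝ) ^ 2 * Real.log ((v : ℝ) * r) ^ 6 ≤ v →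
        Q1 v b k r ∧ ∀ N : Matrix (Fin v) (Fin b) ℕ, Aopt k r N → MSopt k r N ∧ Linear N) ∧
      ∀ l : ℕ, 1 ≤ l →
        C * (l : ℝ) ^ 3 * Real.log ((v : ℝ) * r) ^ 6 * (((r : ℝ) - 1) * ((k : ℝ) - 1)) ^ l
          ≤ (v : ℝ) * r →
        ∀ N : Matrix (Fin v) (Fin b) ℕ, Aopt k r N → LCD.NoCyc l N) ∧
    (∀ v b k r : ℕ, 2 ≤ k → 10000 * (k - 1) ^ 2 ≤ r → 1000 * (k - 1) ^ 2 * r ≤ v →
      Q1 v b k r ∧ ∀ N : Matrix (Fin v) (Fin b) ℕ, Aopt k r N → MSopt k r N ∧ Linear N) ∧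
    (∀ v b k r : ℕ, 1 ≤ v → 1 ≤ b → 2 ≤ r → 10000 * (r - 1) ^ 2 ≤ k →
      1000 * (r - 1) ^ 2 * k ≤ b →
      Q1 v b k r ∧ ∀ N : Matrix (Fin v) (Fin b) ℕ, Aopt k r N → MSopt k r N ∧ Linear N) ∧
    (∀ k : ℕ, 2 ≤ k → ∃ C : ℕ, ∀ v b r : ℕ, 2 ≤ r → ¬ (k = 2 ∧ r = 2) → C * r ≤ v →
      Q1 v b k r ∧ ∀ N : Matrix (Fin v) (Fin b) ℕ, Aopt k r N → MSopt k r N ∧ Linear N) ∧
    (∀ r : ℕ, 2 ≤ r → ∃ C : ℕ, ∀ v b k : ℕ, 1 ≤ v → 1 ≤ b → 2 ≤ k → ¬ (k = 2 ∧ r = 2) →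
      C * k ≤ b →
      Q1 v b k r ∧ ∀ N : Matrix (Fin v) (Fin b) ℕ, Aopt k r N → MSopt k r N ∧ Linear N) :=
  ⟨joint_log_range, spr_range, spr_dual, joint_all, joint_all_dual⟩

end Pool.Agent.Results.MP_eb773b_co.LowConcurrence
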